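import Pool.Agent.N410.DC.Far
import Pool.Agent.R769.MN.Mat
import Pool.Agent.N399.DM.Main

/-!
# Disjoint sets of vertices which are pairwise far from each other

Conditions on multigraphs which are inherited by quotients and imply that there is a nowhere-zero
4-flow or a Petersen quotient (`Inh` of `N410/DC/Gen.lean`).
-/

set_option autoImplicit false
set_option linter.unusedSectionVars false
set_option synthInstance.maxHeartbeats 400000
set_option synthInstance.maxSize 2048

namespace Run7.h694.CP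

open Finset Pool.Agent.TH362.TF Pool.Agent.TH362.TF.Four Pool.Agent.R890.FF Pool.Agent.TH676.Z
open Pool.Agent.R926.SC
open Pool.Agent.R545.IN (Good Thr Ind thr5 thr6 good_nb Mq_ind7)
open Pool.Agent.N410.DC

variable {V E : Type} [Fintype V] [DecidableEq V] [Fintype E] [DecidableEq E]

/-- among any `k` pairwise disjoint sets with at least one boundary edge, none of them in `F`, whose
numbers of boundary edges satisfy `Q`, two are close -/
def FarK (k : ℕ) (Q : (Fin k → ℕ) → Prop) (s t : E → V) (F : Finset E) : Prop :=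
  ∀ X : Fin k → Finset V, (∀ i j, i ≠ j → Disjoint (X i) (X j)) →
    (∀ i, Disjoint (crs s t (X i)) F) → (∀ i, (crs s t (X i)).Nonempty) →
    Q (fun i => (crs s t (X i)).card) → ∃ i j, i ≠ j ∧ CloseS s t (X i) (X j)

/-- every minimal quotient has `k` pairwise nonadjacent vertices with `Q` -/
def Has (V E : Type) [Fintype V] [DecidableEq V] [Fintype E] [DecidableEq E] (k : ℕ)
    (Q : (Fin k → ℕ) → Prop) : Prop :=
  ∀ s t : E → V, Mq s t univ → ∃ x : Fin k → V, Function.Injective x ∧
    (∀ i j, ¬ Nb s t univ (x i) (x j)) ∧ (∀ i, (ct s t (x i)).Nonempty) ∧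
    Q (fun i => (ct s t (x i)).card)

theorem farK_flow {k : ℕ} {Q : (Fin k → ℕ) → Prop} (hH : Has V E k Q) {s t : E → V}
    (h : FarK k Q s t ∅) (h1 : N1 s t univ) : NZ s t univ ∨ PQ s t univ := by
  classical
  by_contra hc
  rw [not_or] at hc
  obtain ⟨π, hM⟩ := exists_Mq s t univ h1 hc.1 hc.2
  set s' : E → V := fun e => π (s e) with hs'
  set t' : E → V := fun e => π (t e) with ht'
  obtain ⟨x, hinj, hi, hne, hQ⟩ := hH s' t' hM
  have key : ∀ y : V, crs s t (univ.filter (fun u => π u ∈ ({y} : Finset V))) = ct s' t' y := by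
    intro y
    ext e
    rw [mem_crs, mem_ct]
    simp [hs', ht']
  obtain ⟨i, j, hij, hcl⟩ := h (fun i => univ.filter (fun u => π u ∈ ({x i} : Finset V)))
    (fun i j hij => by
      rw [disjoint_left]
      intro v hv hv'
      have h3 := mem_singleton.1 (mem_filter.1 hv).2
      rw [mem_singleton.1 (mem_filter.1 hv').2] at h3
      exact hij (hinj h3.symm))
    (fun i => disjoint_empty_right _)
    (fun i => by rw [key]; exact hne i)
    (by simp only [key]; exact hQ)
  have hcl' := closeS_map π hcl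
  have hXY : x i ≠ x j := fun h2 => hij (hinj h2)
  have hno : ¬ Nb s' t' univ (x i) (x j) := hi i j
  have hends : ∀ {y a : V} {e : E}, JnS (π ∘ s) (π ∘ t) {y} a e → Ends s' t' y a e := by
    intro y a e he
    rcases he with ⟨h2, h3⟩ | ⟨h2, h3⟩
    · exact Or.inl ⟨mem_singleton.1 h2, h3⟩
    · exact Or.inr ⟨h2, mem_singleton.1 h3⟩
  have hends' : ∀ {y a : V} {e : E}, Ends s' t' y a e → Ends s' t' a y e := by
    intro y a e he
    rcases he with ⟨h2, h3⟩ | ⟨h2, h3⟩
    · exact Or.inr ⟨h2, h3⟩
    · exact Or.inl ⟨h2, h3⟩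
  rcases hcl' with ⟨e, hE⟩ | ⟨e, f, e', f', a, b, hne, E1, E2, E3, E4⟩
  · refine hno ⟨hXY.symm, e, mem_univ _, ?_⟩
    rcases hE with ⟨h2, h3⟩ | ⟨h2, h3⟩
    · exact Or.inl ⟨mem_singleton.1 h2, mem_singleton.1 h3⟩
    · exact Or.inr ⟨mem_singleton.1 h2, mem_singleton.1 h3⟩
  · have mid : ∀ (e f : E) (a : V), Ends s' t' (x i) a e → Ends s' t' a (x j) f →
        a ≠ x i ∧ a ≠ x j := by
      intro e f a k1 k2
      refine ⟨fun k3 => ?_, fun k3 => ?_⟩
      · rw [k3] at k2
        exact hno ⟨hXY.symm, f, mem_univ _, k2⟩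
      · rw [k3] at k1
        exact hno ⟨hXY.symm, e, mem_univ _, k1⟩
    have F1 := hends E1
    have F2 := hends' (hends E2)
    have F3 := hends E3
    have F4 := hends' (hends E4)
    obtain ⟨A1, A2⟩ := mid e f a F1 F2
    obtain ⟨B1, B2⟩ := mid e' f' b F3 F4
    by_cases hab : a = b
    · rw [← hab] at F3 F4
      have k3 := hM.nopar A1.symm (mem_univ e) (mem_univ e') F1 F3
      have k4 := hM.nopar A2 (mem_univ f) (mem_univ f') F2 F4
      rcases hne with hne | hne
      · exact hne k3
      · exact hne k4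
    · exact hM.four (a := x i) (b := a) (c := x j) (d := b) hXY hab
        ⟨A1, e, mem_univ _, F1⟩ ⟨A2.symm, f, mem_univ _, F2⟩
        (nb_comm ⟨B2.symm, f', mem_univ _, F4⟩)
        (nb_comm ⟨B1, e', mem_univ _, F3⟩)

/-- **The condition is inherited by quotients.** -/
theorem inh_farK {k : ℕ} {Q : (Fin k → ℕ) → Prop} (hH : Has V E k Q) :
    Inh (V := V) (E := E) (FarK k Q) where
  map := by
    intro s t F ρ h X hX hF h2 h3
    simp only [crs_comp] at hF h2 h3
    obtain ⟨i, j, hij, hc⟩ := h _ (fun i j hij => by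
      rw [disjoint_left]
      intro v hv hv'
      exact (disjoint_left.1 (hX i j hij)) (mem_filter.1 hv).2 (mem_filter.1 hv').2) hF h2 h3
    exact ⟨i, j, hij, closeS_map ρ hc⟩
  loops := by
    intro s t F h hl X hX _ h2 h3
    refine h X hX (fun i => ?_) h2 h3
    rw [disjoint_left]
    intro e he heF
    rw [mem_crs, hl e heF] at he
    exact he Iff.rfl
  flow := fun h h1 => farK_flow hH h h1

theorem nb_ct {s t : E → V} {y z : V} (h : Nb s t univ y z) : (ct s t y).Nonempty := by
  obtain ⟨hne, e, -, hE⟩ := h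
  refine ⟨e, ?_⟩
  rw [mem_ct]
  rcases hE with ⟨h1, h2⟩ | ⟨h1, h2⟩
  · intro h3
    exact hne (h2 ▸ (h3.1 h1))
  · intro h3
    exact hne (h1 ▸ (h3.2 h2))

/-- **seven disjoint sets** -/
theorem has7 : Has V E 7 (fun _ => True) := by
  classical
  intro s t hM
  obtain ⟨I, hIc, hnb, hi⟩ := Mq_ind7 hM
  set φ := (Finset.equivFinOfCardEq hIc).symm with hφ
  refine ⟨fun i => (φ i : V), fun i j h => φ.injective (Subtype.ext h),
    fun i j => hi _ (φ i).2 _ (φ j).2, fun i => ?_, trivial⟩
  obtain ⟨z, hz⟩ := hnb _ (φ i).2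
  exact nb_ct hz

/-- sixteen vertices of odd degree with few edges -/
theorem sixteen {s t : E → V} (h : Mq s t univ) :
    ∃ W : Finset V, W.card = 16 ∧ (∀ y ∈ W, Odd (ct s t y).card) ∧
      ∀ I ⊆ W, I.card = 6 → ∑ y ∈ I, (ct s t y).card ≤ 26 := by
  classical
  set d : V → ℕ := fun y => (ct s t y).card with hd
  have hd1 : ∀ y, d y ≠ 1 := fun y => h.n1 _
  have hd2 : ∀ y, d y ≠ 2 := fun y => by
    have h1 := h.nb_ne_two y
    rw [← h.cut_nb y] at h1
    exact h1
  set N : Finset V := univ.filter (fun y => d y ≠ 0) with hN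
  have hN3 : ∀ y ∈ N, 3 ≤ d y := by
    intro y hy
    have h1 := (mem_filter.1 hy).2
    have h2 := hd1 y
    have h3 := hd2 y
    omega
  have hO : ∀ y, y ∈ odd s t univ ↔ d y % 2 = 1 := fun y => odd_iff_cut s t univ y
  have hON : odd s t univ ⊆ N := by
    intro y hy
    rw [hO] at hy
    refine mem_filter.2 ⟨mem_univ _, fun h0 => ?_⟩
    rw [h0] at hy
    exact absurd hy (by decide)
  have h18 := h.odd18
  have hNc : 18 ≤ N.card := h18.trans (card_le_card hON)
  have heN : eIn s t univ = eIn s t N := by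
    refine (Subset.antisymm (fun e he => ?_) (eIn_mono s t (subset_univ _)))
    have h1 := mem_eIn.1 he
    have h2 : ∀ y, e ∈ ct s t y → y ∈ N := fun y hy =>
      mem_filter.2 ⟨mem_univ _, (card_pos.2 ⟨e, hy⟩).ne'⟩
    refine mem_eIn.2 ⟨h2 _ ?_, h2 _ ?_, h1.2.2⟩
    · rw [mem_ct]
      intro h3
      exact h1.2.2 (h3.1 rfl).symm
    · rw [mem_ct]
      intro h3
      exact h1.2.2 (h3.2 rfl)
  have hsum : ∑ y ∈ N, d y = 2 * (eIn s t N).card := by
    rw [← heN, ← sum_ct s t]
    refine sum_subset (subset_univ _) fun y _ hy => ?_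
    by_contra h0
    exact hy (mem_filter.2 ⟨mem_univ _, h0⟩)
  have hsp := sparse h N (by omega)
  set A : Finset V := univ.filter (fun y => d y = 3) with hA
  set B : Finset V := univ.filter (fun y => d y = 5) with hB
  set C : Finset V := univ.filter (fun y => d y = 7) with hC
  set D : Finset V := univ.filter (fun y => d y % 2 = 1 ∧ 9 ≤ d y) with hD
  have hAN : ∀ y, d y = 3 → y ∈ N := fun y hy => mem_filter.2 ⟨mem_univ _, by omega⟩
  have hc1 : ∑ y ∈ N, (4 + (if d y = 5 then 1 else 0) + 3 * (if d y = 7 then 1 else 0) +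
      5 * (if d y % 2 = 1 ∧ 9 ≤ d y then 1 else 0)) ≤
      ∑ y ∈ N, (d y + (if d y = 3 then 1 else 0)) := by
    refine sum_le_sum fun y hy => ?_
    have h1 := hN3 y hy
    split_ifs <;> omega
  rw [sum_add_distrib, sum_add_distrib, sum_add_distrib, sum_add_distrib, sum_const, smul_eq_mul,
    ← mul_sum, ← mul_sum, sum_boole, sum_boole, sum_boole, sum_boole] at hc1
  simp only [Nat.cast_id] at hc1
  have e3 : N.filter (fun y => d y = 3) = A := by
    ext y; simp only [hA, mem_filter, mem_univ, true_and]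
    exact ⟨fun h => h.2, fun h => ⟨hAN y h, h⟩⟩
  have e5 : N.filter (fun y => d y = 5) = B := by
    ext y; simp only [hB, hN, mem_filter, mem_univ, true_and]
    exact ⟨fun h => h.2, fun h => ⟨by omega, h⟩⟩
  have e7 : N.filter (fun y => d y = 7) = C := by
    ext y; simp only [hC, hN, mem_filter, mem_univ, true_and]
    exact ⟨fun h => h.2, fun h => ⟨by omega, h⟩⟩
  have e9 : N.filter (fun y => d y % 2 = 1 ∧ 9 ≤ d y) = D := by
    ext y; simp only [hD, hN, mem_filter, mem_univ, true_and]
    exact ⟨fun h => h.2, fun h => ⟨by omega, h⟩⟩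
  rw [e3, e5, e7, e9] at hc1
  have hcov : odd s t univ ⊆ A ∪ B ∪ C ∪ D := by
    intro y hy
    have h1 := hN3 y (hON hy)
    rw [hO] at hy
    simp only [hA, hB, hC, hD, mem_union, mem_filter, mem_univ, true_and]
    omega
  have hcc : 18 ≤ A.card + B.card + C.card + D.card := by
    refine h18.trans ((card_le_card hcov).trans ?_)
    refine (card_union_le _ _).trans (Nat.add_le_add_right ?_ _)
    refine (card_union_le _ _).trans (Nat.add_le_add_right (card_union_le _ _) _)
  have hdis : Disjoint A B := by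
    rw [disjoint_left]; intro y h1 h2
    have := (mem_filter.1 h1).2; have := (mem_filter.1 h2).2; omega
  have hdis2 : Disjoint (A ∪ B) C := by
    rw [disjoint_left]; intro y h1 h2
    have h3 := (mem_filter.1 h2).2
    rcases mem_union.1 h1 with h1 | h1
    · have := (mem_filter.1 h1).2; omega
    · have := (mem_filter.1 h1).2; omega
  have hAB : (A ∪ B).card = A.card + B.card := card_union_of_disjoint hdis
  have hABC : (A ∪ B ∪ C).card = A.card + B.card + C.card := by
    rw [card_union_of_disjoint hdis2, hAB]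
  -- the three cases
  have fin : ∀ W : Finset V, W.card = 16 → W ⊆ A ∪ B ∪ C →
      2 * (W ∩ B).card + 4 * (W ∩ C).card ≤ 8 →
      ∃ W : Finset V, W.card = 16 ∧ (∀ y ∈ W, Odd (d y)) ∧
        ∀ I ⊆ W, I.card = 6 → ∑ y ∈ I, d y ≤ 26 := by
    intro W hW hsub hle
    have hcase : ∀ y ∈ W, d y = 3 ∨ d y = 5 ∨ d y = 7 := by
      intro y hy
      have h1 := hsub hy
      simp only [hA, hB, hC, mem_union, mem_filter, mem_univ, true_and] at h1
      omega
    refine ⟨W, hW, fun y hy => ?_, fun I hI hIc => ?_⟩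
    · rcases hcase y hy with h1 | h1 | h1 <;> rw [h1] <;> decide
    · have h1 : ∑ y ∈ I, d y ≤ ∑ y ∈ I, (3 + 2 * (if d y = 5 then 1 else 0) +
          4 * (if d y = 7 then 1 else 0)) := by
        refine sum_le_sum fun y hy => ?_
        rcases hcase y (hI hy) with h1 | h1 | h1 <;> rw [h1] <;> decide
      rw [sum_add_distrib, sum_add_distrib, sum_const, smul_eq_mul, ← mul_sum, ← mul_sum,
        sum_boole, sum_boole] at h1
      simp only [Nat.cast_id] at h1
      have h2 : (I.filter (fun y => d y = 5)).card ≤ (W ∩ B).card := by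
        refine card_le_card fun y hy => mem_inter.2 ⟨hI (mem_filter.1 hy).1, ?_⟩
        exact mem_filter.2 ⟨mem_univ _, (mem_filter.1 hy).2⟩
      have h3 : (I.filter (fun y => d y = 7)).card ≤ (W ∩ C).card := by
        refine card_le_card fun y hy => mem_inter.2 ⟨hI (mem_filter.1 hy).1, ?_⟩
        exact mem_filter.2 ⟨mem_univ _, (mem_filter.1 hy).2⟩
      omega
  by_cases hA16 : 16 ≤ A.card
  · obtain ⟨W, hW, hWc⟩ := exists_subset_card_eq hA16
    refine fin W hWc (hW.trans (subset_union_left.trans subset_union_left)) ?_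
    have h1 : W ∩ B = ∅ := disjoint_iff_inter_eq_empty.1 (disjoint_of_subset_left hW hdis)
    have h2 : W ∩ C = ∅ := disjoint_iff_inter_eq_empty.1
      (disjoint_of_subset_left (hW.trans subset_union_left) hdis2)
    rw [h1, h2, card_empty]
    norm_num
  · by_cases hAB16 : 16 ≤ A.card + B.card
    · obtain ⟨W, hW1, hW2, hWc⟩ := exists_subsuperset_card_eq (n := 16)
        (subset_union_left (s₁ := A) (s₂ := B)) (by omega) (by rw [hAB]; exact hAB16)
      refine fin W hWc (hW2.trans subset_union_left) ?_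
      have h2 : W ∩ C = ∅ := disjoint_iff_inter_eq_empty.1 (disjoint_of_subset_left hW2 hdis2)
      have h3 : (W ∩ B).card + A.card ≤ W.card := by
        rw [← card_union_of_disjoint (disjoint_of_subset_left inter_subset_right hdis.symm)]
        exact card_le_card (union_subset inter_subset_left hW1)
      rw [h2, card_empty]
      omega
    · obtain ⟨W, hW1, hW2, hWc⟩ := exists_subsuperset_card_eq (n := 16)
        (subset_union_left (s₁ := A ∪ B) (s₂ := C)) (by rw [hAB]; omega) (by rw [hABC]; omega)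
      refine fin W hWc hW2 ?_
      have h3 : (W ∩ C).card + (A ∪ B).card ≤ W.card := by
        rw [← card_union_of_disjoint (disjoint_of_subset_left inter_subset_right hdis2.symm)]
        exact card_le_card (union_subset inter_subset_left hW1)
      have h4 : (W ∩ B).card ≤ B.card := card_le_card inter_subset_right
      omega

/-- **six disjoint sets with odd boundaries** -/
theorem has6 : Has V E 6 (fun n => (∀ i, Odd (n i)) ∧ ∑ i, n i ≤ 26) := by
  classical
  intro s t hM
  obtain ⟨W, hWc, hodd, hsum⟩ := sixteen hM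
  obtain ⟨I, hI, hIc, hi⟩ := thr6 (good_nb hM) W hWc.ge
  set φ := (Finset.equivFinOfCardEq hIc).symm with hφ
  refine ⟨fun i => (φ i : V), fun i j h => φ.injective (Subtype.ext h),
    fun i j => hi _ (φ i).2 _ (φ j).2, fun i => ?_, fun i => hodd _ (hI (φ i).2), ?_⟩
  · rw [← card_pos]
    exact (hodd _ (hI (φ i).2)).pos
  · refine le_trans (le_of_eq ?_) (hsum I hI hIc)
    rw [← Finset.sum_coe_sort I]
    exact Equiv.sum_comp φ (fun y : I => (ct s t (y : V)).card)

/-- the condition on the graph after the contraction of `F` -/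
def Red (Cl : (E → V) → (E → V) → Prop) (s t : E → V) (F : Finset E) : Prop :=
  ∀ ρ : V → V, (∀ e ∈ F, ρ (s e) = ρ (t e)) → Cl (ρ ∘ s) (ρ ∘ t)

theorem inh_red {Cl : (E → V) → (E → V) → Prop}
    (hf : ∀ s t, Cl s t → N1 s t univ → NZ s t univ ∨ PQ s t univ) :
    Inh (V := V) (E := E) (Red Cl) where
  map := by
    intro s t F ρ h π hπ
    exact h (π ∘ ρ) hπ
  loops := by
    intro s t F h hl π _
    exact h π (fun e he => congrArg π (hl e he))
  flow := by
    intro s t h h1
    exact hf s t (h id (fun e he => absurd he (notMem_empty e))) h1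

/-- every matching has at most eight edges -/
def Mat8 (s t : E → V) : Prop := ∀ M : Finset E, Pool.Agent.R769.MN.IsMat s t M → M.card ≤ 8

theorem inh_mat8 : Inh (V := V) (E := E) (Red Mat8) :=
  inh_red fun s t h h1 => Pool.Agent.R769.MN.match8 s t univ h1 (fun M _ hM => h M hM)

theorem inh_dom : Inh (V := V) (E := E) (Red Pool.Agent.N399.DM.Cl) :=
  inh_red fun _ _ h h1 => h.flow h1

end Run7.h694.CP
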