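import Pool.Agent.Run7.h694.CP.Vert
import Pool.Agent.R129.Hfp.Main
import Pool.Agent.R129.Hfp.Ears

/-!
# `1/2`-flow-pairs for conditions which are inherited by quotients
-/

set_option autoImplicit false
set_option linter.unusedSectionVars false
set_option synthInstance.maxHeartbeats 400000
set_option synthInstance.maxSize 2048

namespace Run7.h694.CP

open Finset Pool.Agent.H160R2.HF Pool.Agent.R129.Hfp Pool.Agent.N410.DC

variable {V E : Type} [Fintype V] [DecidableEq V] [Fintype E] [DecidableEq E]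
variable {K : (E → V) → (E → V) → Finset E → Prop}

theorem hfp_gen (hK : Inh K) (G : OrGraph V E) (hB : G.Bridgeless) (hC : GCl K G.t G.h) :
    (∃ φ₂ φ₄ : E → ℤ, G.IsHalfFlowPair φ₂ φ₄) ∧
      ∀ w, (G.cut {w}).card = 3 → ∀ α β : E → ℤ,
        (∑ e ∈ G.cut {w}, (if G.t e = w then α e else - α e) = 0 ∧
          ∑ e ∈ G.cut {w}, (if G.t e = w then β e else - β e) = 0 ∧
          ∀ e ∈ G.cut {w}, |α e| ≤ 1 ∧ |β e| ≤ 3 ∧ (α e = 0 → 2 ≤ |β e|)) →
        ∃ φ₂ φ₄ : E → ℤ, G.IsHalfFlowPair φ₂ φ₄ ∧ ∀ e ∈ G.cut {w}, φ₂ e = α e ∧ φ₄ e = β e := by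
  obtain ⟨h1, h2⟩ := main (fun G' => GCl K G'.t G'.h)
    (fun G' ρ h => h.map hK ρ)
    (fun G' h hb => by
      rcases h.flow hK (n1_of hb) with h | h
      · exact Or.inl (nzK_of h)
      · exact Or.inr h) _ G rfl hC (G.cut_card_ne_one hB)
  exact ⟨h1, fun w hw α β ⟨a, b, c⟩ => h2 w hw α β a b c⟩

end Run7.h694.CP
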