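import Pool.Agent.Run7.h694.CP.Vert
import Pool.Agent.N410.DC.Oc

/-!
# Orientations of simple graphs: degrees and close vertices
-/

set_option autoImplicit false
set_option linter.unusedSectionVars false
set_option synthInstance.maxHeartbeats 400000
set_option synthInstance.maxSize 2048

namespace Run7.h694.CP

open Finset Pool.Agent.H160R2.HF Pool.Agent.H23.PS Pool.Agent.N410.DC

variable {V E : Type} [Fintype V] [DecidableEq V] [Fintype E] [DecidableEq E]

/-- the number of the edges of an orientation at a vertex is the degree -/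
theorem ct_degree (S : SimpleGraph V) [DecidableRel S.Adj] (K : OrGraph V E)
    (hK : IsOrientation S K) (v : V) : (ct K.t K.h v).card = S.degree v := by
  classical
  rw [← SimpleGraph.card_neighborFinset_eq_degree]
  have h1 : ∀ e, e ∈ ct K.t K.h v ↔ (K.t e = v ∨ K.h e = v) := by
    intro e
    rw [mem_ct]
    have hne := (hK.1 e).ne
    constructor
    · intro h
      by_contra hc
      rw [not_or] at hc
      exact h (iff_of_false hc.1 hc.2)
    · rintro (h | h) h2
      · exact hne (h.trans (h2.1 h).symm)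
      · exact hne ((h2.2 h).trans h.symm)
  refine card_bij (fun e _ => if K.t e = v then K.h e else K.t e) ?_ ?_ ?_
  · intro e he
    rw [h1] at he
    rw [SimpleGraph.mem_neighborFinset]
    have h2 := hK.1 e
    by_cases h3 : K.t e = v
    · simp only [h3, if_true]
      rwa [h3] at h2
    · simp only [h3, if_false]
      rw [he.resolve_left h3] at h2
      exact h2.symm
  · intro e he e' he' hee
    rw [h1] at he he'
    have hadj : ∀ e, (K.t e = v ∨ K.h e = v) →
        ((K.t e = v ∧ K.h e = (if K.t e = v then K.h e else K.t e)) ∨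
          (K.h e = v ∧ K.t e = (if K.t e = v then K.h e else K.t e))) := by
      intro e he
      by_cases h3 : K.t e = v
      · left; exact ⟨h3, by rw [if_pos h3]⟩
      · right; exact ⟨he.resolve_left h3, by rw [if_neg h3]⟩
    have k1 := hadj e he
    have k2 := hadj e' he'
    rw [← hee] at k2
    have h4 : S.Adj v (if K.t e = v then K.h e else K.t e) := by
      have h2 := hK.1 e
      rcases k1 with ⟨k1, k3⟩ | ⟨k1, k3⟩
      · rw [← k3]; rwa [k1] at h2
      · rw [← k3]; rw [k1] at h2; exact h2.symm
    obtain ⟨e0, -, hu⟩ := hK.2 v _ h4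
    rw [hu e k1, hu e' k2]
  · intro w hw
    rw [SimpleGraph.mem_neighborFinset] at hw
    obtain ⟨e, he, -⟩ := hK.2 v w hw
    refine ⟨e, ?_, ?_⟩
    · rw [h1]
      rcases he with ⟨h, _⟩ | ⟨h, _⟩
      · exact Or.inl h
      · exact Or.inr h
    · rcases he with ⟨h, h'⟩ | ⟨h, h'⟩
      · show (if K.t e = v then K.h e else K.t e) = w
        rw [if_pos h]
        exact h'
      · have : K.t e ≠ v := by rw [h']; exact hw.ne'
        show (if K.t e = v then K.h e else K.t e) = w
        rw [if_neg this]
        exact h'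

/-- close vertices of a simple graph: adjacent, or with two common neighbours -/
theorem closeV_of (S : SimpleGraph V) (K : OrGraph V E) (hK : IsOrientation S K) {x y : V}
    (h : S.Adj x y ∨ ∃ a b, a ≠ b ∧ S.Adj x a ∧ S.Adj y a ∧ S.Adj x b ∧ S.Adj y b) :
    CloseV K.t K.h x y := by
  have key : ∀ u v, S.Adj u v → ∃ e, (K.t e = u ∧ K.h e = v) ∨ (K.t e = v ∧ K.h e = u) := by
    intro u v huv
    obtain ⟨e, he, -⟩ := hK.2 u v huv
    exact ⟨e, he.imp id (fun h => ⟨h.2, h.1⟩)⟩
  rcases h with h | ⟨a, b, hab, h1, h2, h3, h4⟩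
  · exact Or.inl (key x y h)
  · obtain ⟨e, he⟩ := key x a h1
    obtain ⟨f, hf⟩ := key y a h2
    obtain ⟨e', he'⟩ := key x b h3
    obtain ⟨f', hf'⟩ := key y b h4
    refine Or.inr ⟨e, f, e', f', a, b, Or.inl ?_, he, hf, he', hf'⟩
    rintro rfl
    apply hab
    rcases he with ⟨k1, k2⟩ | ⟨k1, k2⟩ <;> rcases he' with ⟨k3, k4⟩ | ⟨k3, k4⟩
    · exact k2.symm.trans k4
    · exact absurd (k1.symm.trans k3) h3.ne
    · exact absurd (k2.symm.trans k4) h3.ne
    · exact k1.symm.trans k3

end Run7.h694.CP
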