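import Pool.Agent.Run7.h694.CP.Far

/-!
# Far sets: combined conditions, and conditions on vertices
-/

set_option autoImplicit false
set_option linter.unusedSectionVars false
set_option synthInstance.maxHeartbeats 400000
set_option synthInstance.maxSize 2048

namespace Run7.h694.CP

open Finset Pool.Agent.TH362.TF Pool.Agent.TH362.TF.Four Pool.Agent.R890.FF Pool.Agent.TH676.Z
open Pool.Agent.R926.SC
open Pool.Agent.N410.DC

variable {V E : Type} [Fintype V] [DecidableEq V] [Fintype E] [DecidableEq E]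

/-- one of three conditions -/
def Or3 (K₁ K₂ K₃ : (E → V) → (E → V) → Finset E → Prop) (s t : E → V) (F : Finset E) : Prop :=
  K₁ s t F ∨ K₂ s t F ∨ K₃ s t F

theorem inh_or3 {K₁ K₂ K₃ : (E → V) → (E → V) → Finset E → Prop} (h1 : Inh K₁) (h2 : Inh K₂)
    (h3 : Inh K₃) : Inh (V := V) (E := E) (Or3 K₁ K₂ K₃) where
  map := by
    intro s t F ρ h
    rcases h with h | h | h
    · exact Or.inl (h1.map ρ h)
    · exact Or.inr (Or.inl (h2.map ρ h))
    · exact Or.inr (Or.inr (h3.map ρ h))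
  loops := by
    intro s t F h hl
    rcases h with h | h | h
    · exact Or.inl (h1.loops h hl)
    · exact Or.inr (Or.inl (h2.loops h hl))
    · exact Or.inr (Or.inr (h3.loops h hl))
  flow := by
    intro s t h hN
    rcases h with h | h | h
    · exact h1.flow h hN
    · exact h2.flow h hN
    · exact h3.flow h hN

/-- the condition of six odd sets -/
def Q6 (n : Fin 6 → ℕ) : Prop := (∀ i, Odd (n i)) ∧ ∑ i, n i ≤ 26

/-- **far sets**: seven sets, six odd sets, or five sets with three boundary edges -/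
def Kfar : (E → V) → (E → V) → Finset E → Prop :=
  Or3 (FarK 7 (fun _ => True)) (FarK 6 Q6) Far5

theorem inh_far : Inh (V := V) (E := E) Kfar := inh_or3 (inh_farK has7) (inh_farK has6) inh_far5

/-- the vertices `x` and `y` are joined by an edge, or by two different paths with two edges -/
def CloseV (s t : E → V) (x y : V) : Prop :=
  (∃ e, (s e = x ∧ t e = y) ∨ (s e = y ∧ t e = x)) ∨
    ∃ (e f e' f' : E) (a b : V), (e ≠ e' ∨ f ≠ f') ∧
      ((s e = x ∧ t e = a) ∨ (s e = a ∧ t e = x)) ∧ ((s f = y ∧ t f = a) ∨ (s f = a ∧ t f = y)) ∧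
      ((s e' = x ∧ t e' = b) ∨ (s e' = b ∧ t e' = x)) ∧
      ((s f' = y ∧ t f' = b) ∨ (s f' = b ∧ t f' = y))

theorem CloseV.sets {s t : E → V} {x y : V} (h : CloseV s t x y) {X Y : Finset V} (hx : x ∈ X)
    (hy : y ∈ Y) : CloseS s t X Y := by
  have key : ∀ {e : E} {z a : V} {Z : Finset V}, z ∈ Z →
      ((s e = z ∧ t e = a) ∨ (s e = a ∧ t e = z)) → JnS s t Z a e := by
    intro e z a Z hz h
    rcases h with ⟨h1, h2⟩ | ⟨h1, h2⟩
    · exact Or.inl ⟨h1 ▸ hz, h2⟩
    · exact Or.inr ⟨h1, h2 ▸ hz⟩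
  rcases h with ⟨e, h⟩ | ⟨e, f, e', f', a, b, h0, h1, h2, h3, h4⟩
  · left
    rcases h with ⟨h1, h2⟩ | ⟨h1, h2⟩
    · exact ⟨e, Or.inl ⟨h1 ▸ hx, h2 ▸ hy⟩⟩
    · exact ⟨e, Or.inr ⟨h1 ▸ hy, h2 ▸ hx⟩⟩
  · exact Or.inr ⟨e, f, e', f', a, b, h0, key hx h1, key hy h2, key hx h3, key hy h4⟩

/-- a set with a boundary edge contains a vertex with an edge that is not a loop -/
theorem exists_vert {s t : E → V} {X : Finset V} (h : (crs s t X).Nonempty) :
    ∃ x ∈ X, (ct s t x).Nonempty := by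
  obtain ⟨e, he⟩ := h
  rw [mem_crs] at he
  by_cases h1 : s e ∈ X
  · have h2 : t e ∉ X := fun h2 => he (iff_of_true h1 h2)
    refine ⟨s e, h1, e, ?_⟩
    rw [mem_ct]
    intro h3
    exact h2 (h3.1 rfl ▸ h1)
  · have h2 : t e ∈ X := by
      by_contra h2
      exact he (iff_of_false h1 h2)
    refine ⟨t e, h2, e, ?_⟩
    rw [mem_ct]
    intro h3
    exact h1 (h3.2 rfl ▸ h2)

/-- a set with an odd boundary contains a vertex with an odd number of edges -/
theorem exists_odd {s t : E → V} {X : Finset V} (h : Odd (crs s t X).card) :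
    ∃ x ∈ X, Odd (ct s t x).card := by
  have h1 := parity s t univ (fun v => decide (v ∈ X))
  rw [cut_eq_crs] at h1
  rw [Nat.odd_iff] at h
  rw [h] at h1
  obtain ⟨x, hx⟩ := card_pos.1 (show 0 < ((odd s t univ).filter
    (fun v => decide (v ∈ X) = true)).card by omega)
  rw [mem_filter] at hx
  refine ⟨x, of_decide_eq_true hx.2, ?_⟩
  rw [Nat.odd_iff]
  exact (odd_iff_cut s t univ x).1 hx.1

theorem far7_of_vert {s t : E → V} (h : ∀ x : Fin 7 → V, Function.Injective x →
    (∀ i, (ct s t (x i)).Nonempty) → ∃ i j, i ≠ j ∧ CloseV s t (x i) (x j)) (F : Finset E) :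
    FarK 7 (fun _ => True) s t F := by
  intro X hX _ hne _
  choose x hx hx' using fun i => exists_vert (hne i)
  obtain ⟨i, j, hij, hc⟩ := h x (fun i j hij => by
    by_contra hne'
    exact disjoint_left.1 (hX i j hne') (hx i) (hij ▸ hx j)) hx'
  exact ⟨i, j, hij, hc.sets (hx i) (hx j)⟩

theorem far6_of_vert {s t : E → V} (h : ∀ x : Fin 6 → V, Function.Injective x →
    (∀ i, Odd (ct s t (x i)).card) → ∃ i j, i ≠ j ∧ CloseV s t (x i) (x j)) (F : Finset E) :
    FarK 6 Q6 s t F := by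
  intro X hX _ _ hQ
  choose x hx hx' using fun i => exists_odd (hQ.1 i)
  obtain ⟨i, j, hij, hc⟩ := h x (fun i j hij => by
    by_contra hne'
    exact disjoint_left.1 (hX i j hne') (hx i) (hij ▸ hx j)) hx'
  exact ⟨i, j, hij, hc.sets (hx i) (hx j)⟩

/-- the empty chain -/
theorem gcl_zero {K : (E → V) → (E → V) → Finset E → Prop} {s t : E → V}
    (h : K s t ∅) : GCl K s t :=
  ⟨0, fun i => i.elim0, fun i => i.elim0, by
    have : (univ : Finset (Fin 0)).biUnion (fun i : Fin 0 => (i.elim0 : Finset E)) = ∅ := rfl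
    rw [this]
    exact h⟩

end Run7.h694.CP
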